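import Mathlib

/-!
Jets of proper rational maps between balls: a map of degree at most `d` is determined by its
`d`-jet at the origin (Parseval on the discs through the origin), and monomial maps which are not
determined by low jets.
-/

set_option autoImplicit false

namespace Pool.Agent.T6.H51.JD

open Real Metric Filter Topology ComplexConjugate

/-- Mean values of functions which vanish to high order. -/
theorem meanz {F : ℂ → ℂ} {d : ℕ} (hF : DifferentiableOn ℂ F (ball 0 1))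
    (h0 : F =O[𝓝 0] fun z : ℂ => ‖z‖ ^ (d + 1)) {j : ℕ} (hj : j ≤ d) {r : ℝ} (hr : 0 < r)
    (hr1 : r < 1) : circleAverage (fun z => (z ^ j)⁻¹ * F z) 0 r = 0 := by
  obtain ⟨C, hC⟩ := h0.bound
  have hF0 : F 0 = 0 := by
    have := hC.self_of_nhds
    simpa using this
  have hsub : closedBall (0 : ℂ) |r| ⊆ ball 0 1 := by
    rw [abs_of_pos hr]
    exact closedBall_subset_ball hr1
  have h1 : circleAverage (fun z => (z ^ j)⁻¹ * F z) 0 r = (((0 : ℂ) ^ j)⁻¹ * F 0) := by
    apply circleAverage_of_differentiable_on_off_countable (s := {0}) (Set.countable_singleton _)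
    · intro z hz
      by_cases hz0 : z = 0
      · subst hz0
        apply ContinuousAt.continuousWithinAt
        rw [ContinuousAt, hF0, mul_zero]
        rw [tendsto_zero_iff_norm_tendsto_zero]
        have h2 : Tendsto (fun z : ℂ => |C| * ‖z‖) (𝓝 0) (𝓝 0) := by
          have : Tendsto (fun z : ℂ => |C| * ‖z‖) (𝓝 0) (𝓝 (|C| * ‖(0 : ℂ)‖)) :=
            (continuous_const.mul continuous_norm).tendsto _
          simpa using this
        refine squeeze_zero' (Eventually.of_forall fun _ => norm_nonneg _) ?_ h2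
        filter_upwards [hC, ball_mem_nhds (0 : ℂ) one_pos] with w hw hw1
        by_cases hw0 : w = 0
        · subst hw0
          simp [hF0]
        · have hwn : 0 < ‖w‖ := norm_pos_iff.2 hw0
          have hw1' : ‖w‖ < 1 := by simpa using hw1
          rw [norm_mul, norm_inv, norm_pow]
          have h3 : ‖F w‖ ≤ |C| * (‖w‖ ^ j * ‖w‖) := by
            refine hw.trans ?_
            rw [norm_pow, norm_norm]
            have h4 : ‖w‖ ^ (d + 1) ≤ ‖w‖ ^ j * ‖w‖ := by
              rw [← pow_succ]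
              exact pow_le_pow_of_le_one hwn.le hw1'.le (by omega)
            calc C * ‖w‖ ^ (d + 1) ≤ |C| * ‖w‖ ^ (d + 1) := by
                  gcongr
                  exact le_abs_self C
              _ ≤ |C| * (‖w‖ ^ j * ‖w‖) := by gcongr
          calc (‖w‖ ^ j)⁻¹ * ‖F w‖ ≤ (‖w‖ ^ j)⁻¹ * (|C| * (‖w‖ ^ j * ‖w‖)) := by gcongr
            _ = |C| * ‖w‖ := by field_simp
      · have h2 : DifferentiableAt ℂ F z := hF.differentiableAt (isOpen_ball.mem_nhds (hsub hz))
        exact (((continuous_pow j).continuousAt.inv₀ (pow_ne_zero _ hz0)).mul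
          h2.continuousAt).continuousWithinAt
    · rintro z ⟨hz, hz0⟩
      have hz0' : z ≠ 0 := by simpa using hz0
      have h2 : DifferentiableAt ℂ F z :=
        hF.differentiableAt (isOpen_ball.mem_nhds (hsub (ball_subset_closedBall hz)))
      have h3 : DifferentiableAt ℂ (fun z : ℂ => (z ^ j)⁻¹) z :=
        DifferentiableAt.fun_inv (by fun_prop) (pow_ne_zero _ hz0')
      exact h3.mul h2
  rw [h1, hF0, mul_zero]

/-- Orthogonality. -/
theorem orth {F : ℂ → ℂ} {d : ℕ} (hF : DifferentiableOn ℂ F (ball 0 1))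
    (h0 : F =O[𝓝 0] fun z : ℂ => ‖z‖ ^ (d + 1)) (p : Polynomial ℂ) (hp : p.natDegree ≤ d) {r : ℝ}
    (hr : 0 < r) (hr1 : r < 1) : circleAverage (fun z => conj (p.eval z) * F z) 0 r = 0 := by
  have hFc : ContinuousOn F (sphere 0 |r|) := by
    refine hF.continuousOn.mono ?_
    rw [abs_of_pos hr]
    exact (sphere_subset_closedBall).trans (closedBall_subset_ball hr1)
  have h1 : circleAverage (fun z => conj (p.eval z) * F z) 0 r =
      circleAverage (fun z => ∑ j ∈ Finset.range (d + 1),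
        (conj (p.coeff j) * ((r : ℂ) ^ 2) ^ j) • ((z ^ j)⁻¹ * F z)) 0 r := by
    apply circleAverage_congr_sphere
    intro z hz
    rw [abs_of_pos hr, mem_sphere_zero_iff_norm] at hz
    have hz0 : z ≠ 0 := by
      intro h
      rw [h, norm_zero] at hz
      exact hr.ne hz
    simp only
    rw [Polynomial.eval_eq_sum_range' (Nat.lt_succ_of_le hp), map_sum, Finset.sum_mul]
    refine Finset.sum_congr rfl fun j _ => ?_
    rw [map_mul, map_pow, smul_eq_mul]
    have h2 : conj z = (r : ℂ) ^ 2 * z⁻¹ := by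
      have h3 : z * conj z = (r : ℂ) ^ 2 := by
        rw [Complex.mul_conj, Complex.normSq_eq_norm_sq, hz]
        push_cast
        rfl
      field_simp
      rw [← h3]
      ring
    rw [h2, mul_pow, inv_pow]
    ring
  rw [h1, circleAverage_fun_sum]
  · refine Finset.sum_eq_zero fun j hj => ?_
    rw [circleAverage_fun_smul, meanz hF h0 (by simpa [Nat.lt_succ_iff] using hj) hr hr1, smul_zero]
  · intro j _
    apply ContinuousOn.circleIntegrable'
    have h2 : ContinuousOn (fun z : ℂ => (z ^ j)⁻¹) (sphere 0 |r|) := by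
      refine (continuous_pow j).continuousOn.inv₀ fun z hz => ?_
      rw [abs_of_pos hr, mem_sphere_zero_iff_norm] at hz
      apply pow_ne_zero
      intro h
      rw [h, norm_zero] at hz
      exact hr.ne hz
    have h3 : ContinuousOn (fun z : ℂ => (conj (p.coeff j) * ((r : ℂ) ^ 2) ^ j) *
        ((z ^ j)⁻¹ * F z)) (sphere 0 |r|) := continuousOn_const.mul (h2.mul hFc)
    exact h3

theorem sq_add (a b : ℂ) : ‖a + b‖ ^ 2 = ‖a‖ ^ 2 + ‖b‖ ^ 2 + 2 * (conj a * b).re := by
  rw [← Complex.normSq_eq_norm_sq, ← Complex.normSq_eq_norm_sq, ← Complex.normSq_eq_norm_sq,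
    Complex.normSq_add]
  congr 2
  rw [← Complex.conj_re]
  simp

/-- Pythagoras. -/
theorem pyth {F : ℂ → ℂ} {d : ℕ} (hF : DifferentiableOn ℂ F (ball 0 1))
    (h0 : F =O[𝓝 0] fun z : ℂ => ‖z‖ ^ (d + 1)) (p : Polynomial ℂ) (hp : p.natDegree ≤ d) {r : ℝ}
    (hr : 0 < r) (hr1 : r < 1) : circleAverage (fun z => ‖p.eval z + F z‖ ^ 2) 0 r =
      circleAverage (fun z => ‖p.eval z‖ ^ 2) 0 r + circleAverage (fun z => ‖F z‖ ^ 2) 0 r := by
  have hFc : ContinuousOn F (sphere 0 |r|) := by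
    refine hF.continuousOn.mono ?_
    rw [abs_of_pos hr]
    exact (sphere_subset_closedBall).trans (closedBall_subset_ball hr1)
  have hpc : ContinuousOn (fun z => p.eval z) (sphere 0 |r|) := p.continuous.continuousOn
  have h1 : circleAverage (fun z => (conj (p.eval z) * F z).re) 0 r = 0 := by
    have h2 := ContinuousLinearMap.circleAverage_comp_comm (c := 0) (R := r) Complex.reCLM
      (f := fun z => conj (p.eval z) * F z) (ContinuousOn.circleIntegrable'
        ((Complex.continuous_conj.comp_continuousOn hpc).mul hFc))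
    rw [orth hF h0 p hp hr hr1, map_zero] at h2
    exact h2
  have i1 : CircleIntegrable (fun z => ‖p.eval z‖ ^ 2) 0 r :=
    ContinuousOn.circleIntegrable' (hpc.norm.pow 2)
  have i2 : CircleIntegrable (fun z => ‖F z‖ ^ 2) 0 r :=
    ContinuousOn.circleIntegrable' (hFc.norm.pow 2)
  have i3 : CircleIntegrable (fun z => (conj (p.eval z) * F z).re) 0 r :=
    ContinuousOn.circleIntegrable' (Complex.continuous_re.comp_continuousOn
      ((Complex.continuous_conj.comp_continuousOn hpc).mul hFc))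
  have h3 : (fun z => ‖p.eval z + F z‖ ^ 2) = fun z => (‖p.eval z‖ ^ 2 + ‖F z‖ ^ 2) +
      (2 : ℝ) • (conj (p.eval z) * F z).re := by
    funext z
    rw [sq_add, smul_eq_mul]
  have i4 : CircleIntegrable (fun z => ‖p.eval z‖ ^ 2 + ‖F z‖ ^ 2) 0 r :=
    ContinuousOn.circleIntegrable' ((hpc.norm.pow 2).add (hFc.norm.pow 2))
  have i5 : CircleIntegrable (fun z => (2 : ℝ) • (conj (p.eval z) * F z).re) 0 r :=
    i3.const_smul
  rw [h3, circleAverage_fun_add i4 i5, circleAverage_fun_add i1 i2, circleAverage_fun_smul, h1,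
    smul_zero, add_zero]

theorem norm_cav {f : ℂ → ℂ} {g : ℂ → ℝ} {r : ℝ} (hf : CircleIntegrable f 0 r)
    (hg : CircleIntegrable g 0 r) (h : ∀ z ∈ sphere (0 : ℂ) |r|, ‖f z‖ ≤ g z) :
    ‖circleAverage f 0 r‖ ≤ circleAverage g 0 r := by
  have h1 : ‖circleAverage f 0 r‖ ≤ circleAverage (fun z => ‖f z‖) 0 r := by
    unfold circleAverage
    rw [norm_smul, Real.norm_of_nonneg (by positivity), smul_eq_mul]
    gcongr
    exact intervalIntegral.norm_integral_le_integral_norm (by positivity)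
  exact h1.trans (circleAverage_mono hf.norm hg h)

/-- A holomorphic function with small mean squares. -/
theorem zero_of_small {F : ℂ → ℂ} (hF : DifferentiableOn ℂ F (ball 0 1))
    (hs : ∀ ε : ℝ, 0 < ε → ∃ r0 : ℝ, r0 < 1 ∧ ∀ r : ℝ, r0 < r → r < 1 → 0 < r →
      circleAverage (fun z => ‖F z‖ ^ 2) 0 r ≤ ε) {w : ℂ} (hw : w ∈ ball (0 : ℂ) 1) : F w = 0 := by
  have hw1 : ‖w‖ < 1 := by simpa using hw
  set r1 : ℝ := (1 + ‖w‖) / 2 with hr1
  have hr1w : ‖w‖ < r1 := by rw [hr1]; linarith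
  have hr11 : r1 < 1 := by rw [hr1]; linarith
  set K : ℝ := (r1 - ‖w‖)⁻¹ with hK
  have hKp : 0 < K := inv_pos.2 (by linarith)
  have key : ∀ η : ℝ, 0 < η → ‖F w‖ ≤ K * η := by
    intro η hη
    obtain ⟨r0, hr0, hr0s⟩ := hs (η ^ 2) (by positivity)
    obtain ⟨r, hr⟩ : ∃ r, max r0 r1 < r ∧ r < 1 := exists_between (max_lt hr0 hr11)
    have hrr0 : r0 < r := (le_max_left _ _).trans_lt hr.1
    have hrr1 : r1 < r := (le_max_right _ _).trans_lt hr.1
    have hrp : 0 < r := (norm_nonneg w).trans_lt (hr1w.trans hrr1)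
    have hsub : closedBall (0 : ℂ) r ⊆ ball 0 1 := closedBall_subset_ball hr.2
    have hdc : DiffContOnCl ℂ F (ball 0 |r|) := by
      rw [abs_of_pos hrp]
      exact DifferentiableOn.diffContOnCl_ball (hF.mono (hsub)) subset_rfl
    have h1 := hdc.circleAverage_smul_div (w := w) (by
      rw [abs_of_pos hrp, mem_ball_zero_iff]
      exact hr1w.trans hrr1)
    have hFc : ContinuousOn F (sphere 0 |r|) := by
      refine hF.continuousOn.mono ?_
      rw [abs_of_pos hrp]
      exact (sphere_subset_closedBall).trans hsub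
    rw [← h1]
    -- the norm of the average
    have h2 : ‖circleAverage (fun z => ((z - 0) / (z - w)) • F z) 0 r‖ ≤
        circleAverage (fun z => K * ((η + ‖F z‖ ^ 2 / η) / 2)) 0 r := by
      have hne : ∀ z ∈ sphere (0 : ℂ) |r|, z - w ≠ 0 := by
        intro z hz h
        rw [abs_of_pos hrp, mem_sphere_zero_iff_norm] at hz
        rw [sub_eq_zero.1 h] at hz
        linarith
      apply norm_cav
      · apply ContinuousOn.circleIntegrable'
        have c1 : ContinuousOn (fun z : ℂ => (z - 0) / (z - w)) (sphere 0 |r|) :=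
          (by fun_prop : ContinuousOn (fun z : ℂ => z - 0) _).div (by fun_prop) hne
        exact c1.smul hFc
      · apply ContinuousOn.circleIntegrable'
        exact continuousOn_const.mul ((continuousOn_const.add
          ((hFc.norm.pow 2).div_const _)).div_const _)
      · intro z hz
        have hz1 := hz
        rw [abs_of_pos hrp, mem_sphere_zero_iff_norm] at hz1
        rw [smul_eq_mul, norm_mul, norm_div, sub_zero, hz1]
        have h4 : r1 - ‖w‖ ≤ ‖z - w‖ := by
          have := norm_sub_norm_le z w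
          linarith
        have h5 : r / ‖z - w‖ ≤ K := by
          rw [hK, div_le_iff₀ (norm_pos_iff.2 (hne z hz)), inv_mul_eq_div,
            le_div_iff₀ (by linarith)]
          nlinarith
        have h6 : ‖F z‖ ≤ (η + ‖F z‖ ^ 2 / η) / 2 := by
          have h7 : η + ‖F z‖ ^ 2 / η - 2 * ‖F z‖ = (η - ‖F z‖) ^ 2 / η := by
            field_simp
            ring
          have h8 : 0 ≤ (η - ‖F z‖) ^ 2 / η := by positivity
          linarith
        gcongr
    refine h2.trans ?_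
    have h3 : (fun z => K * ((η + ‖F z‖ ^ 2 / η) / 2)) =
        fun z => K * η / 2 + (K / (2 * η)) • ‖F z‖ ^ 2 := by
      funext z
      rw [smul_eq_mul]
      field_simp
    have i1 : CircleIntegrable (fun _ : ℂ => K * η / 2) 0 r := circleIntegrable_const _ _ _
    have i2 : CircleIntegrable (fun z => (K / (2 * η)) • ‖F z‖ ^ 2) 0 r :=
      ContinuousOn.circleIntegrable' (continuousOn_const.mul (hFc.norm.pow 2))
    rw [h3, circleAverage_fun_add i1 i2, circleAverage_const,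
      circleAverage_fun_smul, smul_eq_mul]
    have h4 := hr0s r hrr0 hr.2 hrp
    calc K * η / 2 + K / (2 * η) * circleAverage (fun z => ‖F z‖ ^ 2) 0 r
        ≤ K * η / 2 + K / (2 * η) * η ^ 2 := by gcongr
      _ = K * η := by field_simp; ring
  have h5 : ‖F w‖ ≤ 0 := by
    refine le_of_forall_pos_le_add fun ε hε => ?_
    have := key (ε / K) (by positivity)
    rwa [mul_div_cancel₀ _ hKp.ne', ← zero_add ε] at this
  exact norm_le_zero_iff.1 h5

/-- The statement in one variable. -/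
theorem core {N d : ℕ} (φ : Fin N → ℂ → ℂ) (p : Fin N → Polynomial ℂ) (b : ℂ → ℝ)
    (hφ : ∀ c, DifferentiableOn ℂ (φ c) (ball 0 1))
    (h0 : ∀ c, φ c =O[𝓝 0] fun z : ℂ => ‖z‖ ^ (d + 1)) (hp : ∀ c, (p c).natDegree ≤ d)
    (hb : Continuous b) (h1 : ∀ z ∈ ball (0 : ℂ) 1, ∑ c, ‖(p c).eval z + φ c z‖ ^ 2 ≤ b z)
    (h2 : ∀ z : ℂ, ‖z‖ = 1 → ∑ c, ‖(p c).eval z‖ ^ 2 = b z) (c : Fin N) {w : ℂ}
    (hw : w ∈ ball (0 : ℂ) 1) : φ c w = 0 := by
  refine zero_of_small (hφ c) (fun ε hε => ?_) hw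
  set u : ℂ → ℝ := fun z => b z - ∑ c, ‖(p c).eval z‖ ^ 2 with hu
  have huc : Continuous u := by
    refine hb.sub (continuous_finsetSum _ fun c _ => ?_)
    exact ((p c).continuous.norm).pow 2
  have huni := (isCompact_closedBall (0 : ℂ) 1).uniformContinuousOn_of_continuous huc.continuousOn
  obtain ⟨δ, hδ, hδu⟩ := Metric.uniformContinuousOn_iff.1 huni ε hε
  refine ⟨1 - δ, by linarith, fun r hr0 hr1 hr => ?_⟩
  have hsub : sphere (0 : ℂ) |r| ⊆ ball 0 1 := by
    rw [abs_of_pos hr]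
    exact (sphere_subset_closedBall).trans (closedBall_subset_ball hr1)
  have hFc : ∀ c, ContinuousOn (φ c) (sphere 0 |r|) := fun c => (hφ c).continuousOn.mono hsub
  have hpc : ∀ c, ContinuousOn (fun z => (p c).eval z) (sphere 0 |r|) :=
    fun c => (p c).continuous.continuousOn
  have i1 : ∀ c, CircleIntegrable (fun z => ‖(p c).eval z‖ ^ 2) 0 r := fun c =>
    ContinuousOn.circleIntegrable' ((hpc c).norm.pow 2)
  have i2 : ∀ c, CircleIntegrable (fun z => ‖φ c z‖ ^ 2) 0 r := fun c =>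
    ContinuousOn.circleIntegrable' ((hFc c).norm.pow 2)
  have i3 : ∀ c, CircleIntegrable (fun z => ‖(p c).eval z + φ c z‖ ^ 2) 0 r := fun c =>
    ContinuousOn.circleIntegrable' (((hpc c).add (hFc c)).norm.pow 2)
  have i4 : CircleIntegrable (fun z => ∑ c, ‖(p c).eval z‖ ^ 2) 0 r :=
    ContinuousOn.circleIntegrable' (continuousOn_finsetSum _ fun c _ => (hpc c).norm.pow 2)
  have i5 : CircleIntegrable (fun z => ∑ c, ‖(p c).eval z + φ c z‖ ^ 2) 0 r :=
    ContinuousOn.circleIntegrable'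
      (continuousOn_finsetSum _ fun c _ => ((hpc c).add (hFc c)).norm.pow 2)
  have i6 : CircleIntegrable b 0 r := ContinuousOn.circleIntegrable' hb.continuousOn
  have i7 : CircleIntegrable u 0 r := ContinuousOn.circleIntegrable' huc.continuousOn
  have e1 : circleAverage (fun z => ∑ c, ‖(p c).eval z + φ c z‖ ^ 2) 0 r =
      circleAverage (fun z => ∑ c, ‖(p c).eval z‖ ^ 2) 0 r +
        ∑ c, circleAverage (fun z => ‖φ c z‖ ^ 2) 0 r := by
    rw [circleAverage_fun_sum fun c _ => i3 c, circleAverage_fun_sum fun c _ => i1 c,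
      ← Finset.sum_add_distrib]
    exact Finset.sum_congr rfl fun c _ => pyth (hφ c) (h0 c) (p c) (hp c) hr hr1
  have e2 : circleAverage (fun z => ∑ c, ‖(p c).eval z + φ c z‖ ^ 2) 0 r ≤ circleAverage b 0 r :=
    circleAverage_mono i5 i6 fun z hz => h1 z (hsub hz)
  have e3 : circleAverage u 0 r =
      circleAverage b 0 r - circleAverage (fun z => ∑ c, ‖(p c).eval z‖ ^ 2) 0 r :=
    circleAverage_fun_sub i6 i4
  have e4 : circleAverage u 0 r ≤ ε := by
    apply circleAverage_mono_on_of_le_circle i7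
    intro z hz
    rw [abs_of_pos hr, mem_sphere_zero_iff_norm] at hz
    set z' : ℂ := ((r : ℂ)⁻¹) * z with hz'
    have hrc : (r : ℂ) ≠ 0 := by exact_mod_cast hr.ne'
    have hz'n : ‖z'‖ = 1 := by
      rw [hz', norm_mul, norm_inv, Complex.norm_real, Real.norm_of_nonneg hr.le, hz,
        inv_mul_cancel₀ hr.ne']
    have hd : dist z z' < δ := by
      have h3 : z - z' = ((r : ℂ) - 1) * z' := by
        rw [hz']
        field_simp
      rw [dist_eq_norm, h3, norm_mul, hz'n, mul_one]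
      have h4 : ((r : ℂ) - 1) = ((r - 1 : ℝ) : ℂ) := by push_cast; rfl
      rw [h4, Complex.norm_real, Real.norm_eq_abs, abs_lt]
      constructor <;> linarith
    have h5 := hδu z (by rw [mem_closedBall_zero_iff, hz]; exact hr1.le) z'
      (by rw [mem_closedBall_zero_iff, hz'n]) hd
    have h6 : u z' = 0 := by
      rw [hu]
      simp only
      rw [h2 z' hz'n, sub_self]
    rw [h6, Real.dist_eq, sub_zero] at h5
    exact (le_abs_self _).trans h5.le
  have e5 : circleAverage (fun z => ‖φ c z‖ ^ 2) 0 r ≤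
      ∑ c, circleAverage (fun z => ‖φ c z‖ ^ 2) 0 r :=
    Finset.single_le_sum (f := fun c => circleAverage (fun z => ‖φ c z‖ ^ 2) 0 r)
      (fun c _ => circleAverage_nonneg_of_nonneg fun z _ => by positivity) (Finset.mem_univ c)
  linarith

/-! ### Several variables -/

open MvPolynomial

/-- The polynomial on a line. -/
noncomputable def sl {n : ℕ} (a b : Fin n → ℂ) (Q : MvPolynomial (Fin n) ℂ) : Polynomial ℂ :=
  aeval (fun j => Polynomial.C (a j) + Polynomial.C (b j) * Polynomial.X) Q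

theorem sl_eval {n : ℕ} (a b : Fin n → ℂ) (Q : MvPolynomial (Fin n) ℂ) (t : ℂ) :
    (sl a b Q).eval t = eval (fun j => a j + t * b j) Q := by
  unfold sl
  have h1 : (Polynomial.aeval t : Polynomial ℂ →ₐ[ℂ] ℂ).comp
      (aeval (fun j => Polynomial.C (a j) + Polynomial.C (b j) * Polynomial.X)) =
      (aeval (fun j => a j + t * b j) : MvPolynomial (Fin n) ℂ →ₐ[ℂ] ℂ) := by
    apply MvPolynomial.algHom_ext
    intro j
    rw [AlgHom.comp_apply, aeval_X, aeval_X, map_add, map_mul, Polynomial.aeval_C,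
      Polynomial.aeval_C, Polynomial.aeval_X]
    show a j + b j * t = a j + t * b j
    ring
  have h2 := DFunLike.congr_fun h1 Q
  rw [AlgHom.comp_apply, MvPolynomial.aeval_eq_eval] at h2
  rw [← h2, Polynomial.coe_aeval_eq_eval]

theorem sl_natDegree {n d : ℕ} (a b : Fin n → ℂ) {Q : MvPolynomial (Fin n) ℂ}
    (hQ : Q.totalDegree ≤ d) : (sl a b Q).natDegree ≤ d := by
  unfold sl
  rw [MvPolynomial.aeval_def, MvPolynomial.eval₂_eq']
  refine Polynomial.natDegree_sum_le_of_forall_le _ _ fun e he => ?_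
  have h1 : ∑ i, e i ≤ d := by
    refine le_trans (le_of_eq ?_) ((MvPolynomial.le_totalDegree he).trans hQ)
    rw [Finsupp.sum_fintype _ _ fun _ => rfl]
  refine (Polynomial.natDegree_C_mul_le _ _).trans ?_
  refine (Polynomial.natDegree_prod_le _ _).trans ?_
  refine le_trans ?_ h1
  refine Finset.sum_le_sum fun i _ => ?_
  refine (Polynomial.natDegree_pow_le).trans ?_
  have h3 : (Polynomial.C (a i) + Polynomial.C (b i) * Polynomial.X).natDegree ≤ 1 := by
    refine (Polynomial.natDegree_add_le _ _).trans ?_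
    rw [Polynomial.natDegree_C]
    exact max_le (Nat.zero_le _)
      ((Polynomial.natDegree_C_mul_le _ _).trans Polynomial.natDegree_X_le)
  calc e i * _ ≤ e i * 1 := Nat.mul_le_mul_left _ h3
    _ = e i := mul_one _

/-- Proper rational maps between balls. -/
structure PR {n N : ℕ} (f : EuclideanSpace ℂ (Fin n) → EuclideanSpace ℂ (Fin N)) : Prop where
  holo : DifferentiableOn ℂ f (ball 0 1)
  maps : ∀ z ∈ ball (0 : EuclideanSpace ℂ (Fin n)) 1, f z ∈ ball (0 : EuclideanSpace ℂ (Fin N)) 1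
  proper : ∀ K ⊆ ball (0 : EuclideanSpace ℂ (Fin N)) 1, IsCompact K →
    IsCompact (ball (0 : EuclideanSpace ℂ (Fin n)) 1 ∩ f ⁻¹' K)

variable {n N : ℕ}

theorem eval_cont (q : MvPolynomial (Fin n) ℂ) :
    Continuous fun z : EuclideanSpace ℂ (Fin n) => eval (fun i => z i) q :=
  (MvPolynomial.continuous_eval q).comp (by fun_prop)

/-- The identity on the sphere. -/
theorem sphere_id {f : EuclideanSpace ℂ (Fin n) → EuclideanSpace ℂ (Fin N)} (hf : PR f)
    (P : Fin N → MvPolynomial (Fin n) ℂ) (q : MvPolynomial (Fin n) ℂ)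
    (hPq : ∀ z ∈ ball (0 : EuclideanSpace ℂ (Fin n)) 1, ∀ j,
      eval (fun i => z i) q * f z j = eval (fun i => z i) (P j))
    {ζ : EuclideanSpace ℂ (Fin n)} (hζ : ‖ζ‖ = 1) :
    ∑ j, ‖eval (fun i => ζ i) (P j)‖ ^ 2 = ‖eval (fun i => ζ i) q‖ ^ 2 := by
  have hid : ∀ z ∈ ball (0 : EuclideanSpace ℂ (Fin n)) 1,
      ∑ j, ‖eval (fun i => z i) (P j)‖ ^ 2 = ‖eval (fun i => z i) q‖ ^ 2 * ‖f z‖ ^ 2 := by
    intro z hz
    rw [EuclideanSpace.norm_sq_eq, Finset.mul_sum]
    refine Finset.sum_congr rfl fun j _ => ?_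
    rw [← hPq z hz j, norm_mul, mul_pow]
  set U : EuclideanSpace ℂ (Fin n) → ℝ := fun z => ∑ j, ‖eval (fun i => z i) (P j)‖ ^ 2 with hU
  set V : EuclideanSpace ℂ (Fin n) → ℝ := fun z => ‖eval (fun i => z i) q‖ ^ 2 with hV
  have hUc : Continuous U := continuous_finsetSum _ fun j _ => ((eval_cont (P j)).norm).pow 2
  have hVc : Continuous V := ((eval_cont q).norm).pow 2
  have hline : Tendsto (fun t : ℝ => (t : ℂ) • ζ) (𝓝[<] 1) (𝓝 ζ) := by
    have h1 : Tendsto (fun t : ℝ => (t : ℂ) • ζ) (𝓝 1) (𝓝 (((1 : ℝ) : ℂ) • ζ)) :=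
      ((Complex.continuous_ofReal.smul continuous_const).tendsto _)
    rw [Complex.ofReal_one, one_smul] at h1
    exact h1.mono_left nhdsWithin_le_nhds
  have hball : ∀ᶠ t : ℝ in 𝓝[<] 1, (t : ℂ) • ζ ∈ ball (0 : EuclideanSpace ℂ (Fin n)) 1 := by
    filter_upwards [Ioo_mem_nhdsLT (show (0 : ℝ) < 1 by norm_num)] with t ht
    rw [mem_ball_zero_iff, norm_smul, hζ, mul_one, Complex.norm_real, Real.norm_of_nonneg ht.1.le]
    exact ht.2
  have hU1 : Tendsto (fun t : ℝ => U ((t : ℂ) • ζ)) (𝓝[<] 1) (𝓝 (U ζ)) :=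
    (hUc.tendsto _).comp hline
  have hV1 : Tendsto (fun t : ℝ => V ((t : ℂ) • ζ)) (𝓝[<] 1) (𝓝 (V ζ)) :=
    (hVc.tendsto _).comp hline
  apply le_antisymm
  · refine le_of_tendsto_of_tendsto hU1 hV1 ?_
    filter_upwards [hball] with t ht
    show U _ ≤ V _
    rw [hU, hV]
    simp only
    rw [hid _ ht]
    have h1 := hf.maps _ ht
    rw [mem_ball_zero_iff] at h1
    have h2 : ‖f ((t : ℂ) • ζ)‖ ^ 2 ≤ 1 := by nlinarith [norm_nonneg (f ((t : ℂ) • ζ))]
    exact mul_le_of_le_one_right (by positivity) h2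
  · -- the lower bound
    have key : ∀ ε : ℝ, 0 < ε → ε < 1 → (1 - ε) ^ 2 * V ζ ≤ U ζ := by
      intro ε hε hε1
      have hK : IsCompact (ball (0 : EuclideanSpace ℂ (Fin n)) 1 ∩
          f ⁻¹' (closedBall (0 : EuclideanSpace ℂ (Fin N)) (1 - ε))) :=
        hf.proper _ (closedBall_subset_ball (by linarith)) (isCompact_closedBall _ _)
      obtain ⟨s, hs1, hs⟩ : ∃ s : ℝ, s < 1 ∧ ∀ z ∈ ball (0 : EuclideanSpace ℂ (Fin n)) 1 ∩
          f ⁻¹' (closedBall (0 : EuclideanSpace ℂ (Fin N)) (1 - ε)), ‖z‖ ≤ s := by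
        by_cases hne : (ball (0 : EuclideanSpace ℂ (Fin n)) 1 ∩
          f ⁻¹' (closedBall (0 : EuclideanSpace ℂ (Fin N)) (1 - ε))).Nonempty
        · obtain ⟨z, hz, hmax⟩ := hK.exists_isMaxOn hne continuous_norm.continuousOn
          exact ⟨‖z‖, by simpa using hz.1, fun w hw => hmax hw⟩
        · exact ⟨0, by norm_num, fun w hw => absurd ⟨w, hw⟩ hne⟩
      refine le_of_tendsto_of_tendsto (hV1.const_mul _) hU1 ?_
      filter_upwards [hball, Ioo_mem_nhdsLT (show max s 0 < (1 : ℝ) by simp [hs1])] with t ht ht2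
      show (1 - ε) ^ 2 * V _ ≤ U _
      rw [hU, hV]
      simp only
      rw [hid _ ht, mul_comm]
      have h1 : 1 - ε < ‖f ((t : ℂ) • ζ)‖ := by
        by_contra hc
        push Not at hc
        have h2 := hs _ ⟨ht, by simpa using hc⟩
        have ht0 : 0 < t := (le_max_right _ _).trans_lt ht2.1
        rw [norm_smul, hζ, mul_one, Complex.norm_real, Real.norm_of_nonneg ht0.le] at h2
        have := (le_max_left s 0).trans_lt ht2.1
        linarith
      have h3 : (1 - ε) ^ 2 ≤ ‖f ((t : ℂ) • ζ)‖ ^ 2 := by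
        have : 0 ≤ 1 - ε := by linarith
        gcongr
      exact mul_le_mul_of_nonneg_left h3 (by positivity)
    have hlim : Tendsto (fun ε : ℝ => (1 - ε) ^ 2 * V ζ) (𝓝[>] 0) (𝓝 (V ζ)) := by
      have h1 : Tendsto (fun ε : ℝ => (1 - ε) ^ 2 * V ζ) (𝓝 0) (𝓝 ((1 - 0) ^ 2 * V ζ)) := by
        apply Continuous.tendsto
        fun_prop
      rw [sub_zero, one_pow, one_mul] at h1
      exact h1.mono_left nhdsWithin_le_nhds
    refine le_of_tendsto hlim ?_
    filter_upwards [Ioo_mem_nhdsGT (show (0 : ℝ) < 1 by norm_num)] with ε hε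
    exact key ε hε.1 hε.2

/-- A function which is killed by a polynomial. -/
theorem killed {h : EuclideanSpace ℂ (Fin n) → ℂ} (q : MvPolynomial (Fin n) ℂ) (hq : q ≠ 0)
    (hc : ContinuousOn h (ball 0 1))
    (hk : ∀ z ∈ ball (0 : EuclideanSpace ℂ (Fin n)) 1, eval (fun i => z i) q * h z = 0)
    {w : EuclideanSpace ℂ (Fin n)} (hw : w ∈ ball (0 : EuclideanSpace ℂ (Fin n)) 1) : h w = 0 := by
  by_contra hne
  apply hq
  -- `q` vanishes near `w`
  have h1 : ∀ᶠ z in 𝓝 w, eval (fun i => z i) q = 0 := by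
    have h2 : ContinuousAt h w := hc.continuousAt (isOpen_ball.mem_nhds hw)
    filter_upwards [h2.eventually_ne hne, isOpen_ball.mem_nhds hw] with z hz hz1
    exact (mul_eq_zero.1 (hk z hz1)).resolve_right hz
  apply MvPolynomial.funext
  intro x
  rw [map_zero]
  set x' : EuclideanSpace ℂ (Fin n) := WithLp.toLp 2 x with hx'
  set b : Fin n → ℂ := fun i => x i - w i with hb
  have h3 : sl (fun i => w i) b q = 0 := by
    apply Polynomial.eq_zero_of_infinite_isRoot
    have h4 : ∀ᶠ t : ℂ in 𝓝 0, (sl (fun i => w i) b q).IsRoot t := by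
      have h5 : Tendsto (fun t : ℂ => w + t • (x' - w)) (𝓝 0) (𝓝 w) := by
        have : Tendsto (fun t : ℂ => w + t • (x' - w)) (𝓝 0) (𝓝 (w + (0 : ℂ) • (x' - w))) := by
          apply Continuous.tendsto
          fun_prop
        simpa using this
      filter_upwards [h5.eventually h1] with t ht
      rw [Polynomial.IsRoot, sl_eval]
      exact ht
    exact infinite_of_mem_nhds 0 h4
  have h6 := sl_eval (fun i => w i) b q 1
  rw [h3, Polynomial.eval_zero] at h6
  rw [h6]
  congr 1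
  congr 1
  funext j
  rw [hb]
  ring

/-- Jet determination. -/
theorem upper {d : ℕ} {f g : EuclideanSpace ℂ (Fin n) → EuclideanSpace ℂ (Fin N)} (hf : PR f)
    (hg : DifferentiableOn ℂ g (ball 0 1))
    (hgm : ∀ z ∈ ball (0 : EuclideanSpace ℂ (Fin n)) 1, ‖g z‖ ≤ 1)
    (P : Fin N → MvPolynomial (Fin n) ℂ) (q : MvPolynomial (Fin n) ℂ) (hq : q ≠ 0)
    (hP : ∀ j, (P j).totalDegree ≤ d)
    (hPq : ∀ z ∈ ball (0 : EuclideanSpace ℂ (Fin n)) 1, ∀ j,
      eval (fun i => z i) q * f z j = eval (fun i => z i) (P j))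
    (hjet : (fun z => f z - g z) =O[𝓝 0] fun z => ‖z‖ ^ (d + 1)) :
    ∀ z ∈ ball (0 : EuclideanSpace ℂ (Fin n)) 1, f z = g z := by
  have hcomp : ∀ c : Fin N, Continuous fun v : EuclideanSpace ℂ (Fin N) => v c := by
    intro c
    fun_prop
  have hfc : ∀ c, DifferentiableOn ℂ (fun z => f z c) (ball 0 1) := by
    intro c
    exact (EuclideanSpace.proj (𝕜 := ℂ) c).differentiable.comp_differentiableOn hf.holo
  have hgc : ∀ c, DifferentiableOn ℂ (fun z => g z c) (ball 0 1) := by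
    intro c
    exact (EuclideanSpace.proj (𝕜 := ℂ) c).differentiable.comp_differentiableOn hg
  intro w hw
  ext c
  have h00 : f 0 = g 0 := by
    obtain ⟨C, hC⟩ := hjet.bound
    have := hC.self_of_nhds
    rw [norm_zero, zero_pow (Nat.succ_ne_zero d), norm_zero, mul_zero] at this
    exact sub_eq_zero.1 (norm_le_zero_iff.1 this)
  have hmain : ∀ z ∈ ball (0 : EuclideanSpace ℂ (Fin n)) 1,
      eval (fun i => z i) q * (g z c - f z c) = 0 := by
    intro z hz
    by_cases hz0 : z = 0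
    · rw [hz0, h00, sub_self, mul_zero]
    have hzn : 0 < ‖z‖ := norm_pos_iff.2 hz0
    set ζ : EuclideanSpace ℂ (Fin n) := ((‖z‖ : ℂ)⁻¹) • z with hζ
    have hζ1 : ‖ζ‖ = 1 := by
      rw [hζ, norm_smul, norm_inv, Complex.norm_real, norm_norm, inv_mul_cancel₀ hzn.ne']
    have hsl : ∀ (Q : MvPolynomial (Fin n) ℂ) (t : ℂ),
        (sl 0 (fun i => ζ i) Q).eval t = eval (fun i => (t • ζ) i) Q := by
      intro Q t
      rw [sl_eval]
      congr 1
      congr 1
      funext j
      simp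
    have hin : ∀ t : ℂ, ‖t • ζ‖ = ‖t‖ := by
      intro t
      rw [norm_smul, hζ1, mul_one]
    have hin2 : ∀ t ∈ ball (0 : ℂ) 1, t • ζ ∈ ball (0 : EuclideanSpace ℂ (Fin n)) 1 := by
      intro t ht
      rw [mem_ball_zero_iff] at ht ⊢
      rwa [hin]
    have hlin : Differentiable ℂ fun t : ℂ => t • ζ := by fun_prop
    have hq1 : Differentiable ℂ fun t : ℂ => (sl 0 (fun i => ζ i) q).eval t :=
      Polynomial.differentiable _
    have hres := core (N := N) (d := d)
      (fun c t => (sl 0 (fun i => ζ i) q).eval t * (g (t • ζ) c - f (t • ζ) c))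
      (fun c => sl 0 (fun i => ζ i) (P c)) (fun t => ‖(sl 0 (fun i => ζ i) q).eval t‖ ^ 2)
      (fun c => hq1.differentiableOn.mul
        (((hgc c).comp hlin.differentiableOn hin2).sub ((hfc c).comp hlin.differentiableOn hin2)))
      (fun c => by
        have o1 : (fun t : ℂ => f (t • ζ) - g (t • ζ)) =O[𝓝 0] fun t : ℂ => ‖t‖ ^ (d + 1) := by
          have h5 : Tendsto (fun t : ℂ => t • ζ) (𝓝 0) (𝓝 0) := by
            have : Tendsto (fun t : ℂ => t • ζ) (𝓝 0) (𝓝 ((0 : ℂ) • ζ)) :=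
              hlin.continuous.tendsto _
            simpa using this
          have h6 := hjet.comp_tendsto h5
          refine h6.congr_right fun t => ?_
          show ‖t • ζ‖ ^ (d + 1) = _
          rw [hin]
        have o2 : (fun t : ℂ => g (t • ζ) c - f (t • ζ) c) =O[𝓝 0] fun t : ℂ => ‖t‖ ^ (d + 1) := by
          refine (Asymptotics.isBigO_of_le _ fun t => ?_).trans o1
          have h7 := EuclideanSpace.norm_sq_eq (f (t • ζ) - g (t • ζ))
          have h8 : ‖(f (t • ζ) - g (t • ζ)) c‖ ^ 2 ≤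
              ∑ i, ‖(f (t • ζ) - g (t • ζ)) i‖ ^ 2 :=
            Finset.single_le_sum (f := fun i => ‖(f (t • ζ) - g (t • ζ)) i‖ ^ 2)
              (fun i _ => by positivity) (Finset.mem_univ c)
          rw [← h7] at h8
          have h9 := (pow_le_pow_iff_left₀ (norm_nonneg _) (norm_nonneg _) two_ne_zero).1 h8
          rw [norm_sub_rev]
          exact h9
        have o3 : (fun t : ℂ => (sl 0 (fun i => ζ i) q).eval t) =O[𝓝 0] fun _ : ℂ => (1 : ℝ) :=
          (hq1.continuous.tendsto 0).isBigO_one ℝ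
        have o4 := o3.mul o2
        refine o4.congr_right fun t => ?_
        rw [one_mul])
      (fun c => sl_natDegree _ _ (hP c))
      ((hq1.continuous.norm).pow 2)
      (fun t ht => by
        have h1 : ∀ c, (sl 0 (fun i => ζ i) (P c)).eval t +
            (sl 0 (fun i => ζ i) q).eval t * (g (t • ζ) c - f (t • ζ) c) =
            (sl 0 (fun i => ζ i) q).eval t * g (t • ζ) c := by
          intro c
          rw [hsl, hsl, ← hPq _ (hin2 t ht) c]
          ring
        simp only [h1, norm_mul, mul_pow]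
        rw [← Finset.mul_sum, ← EuclideanSpace.norm_sq_eq]
        have h2 := hgm _ (hin2 t ht)
        have h3 : ‖g (t • ζ)‖ ^ 2 ≤ 1 := by nlinarith [norm_nonneg (g (t • ζ))]
        exact mul_le_of_le_one_right (by positivity) h3)
      (fun t ht => by
        simp only [hsl]
        exact sphere_id hf P q hPq (by rw [hin, ht]))
      c (w := (‖z‖ : ℂ)) (by
        rw [mem_ball_zero_iff, Complex.norm_real, norm_norm]
        simpa using hz)
    have hz' : (‖z‖ : ℂ) • ζ = z := by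
      rw [hζ, smul_smul, mul_inv_cancel₀ (by exact_mod_cast hzn.ne'), one_smul]
    simp only [hsl, hz'] at hres
    exact hres
  have h1 := killed (h := fun z => g z c - f z c) q hq
    ((hgc c).continuousOn.sub (hfc c).continuousOn) hmain hw
  exact (sub_eq_zero.1 h1).symm

/-! ### Monomial maps -/

section Low

variable {ι : Type} [Fintype ι]

open Classical in
/-- The map with the components `F`, placed by `e`. -/
noncomputable def mk (e : ι ↪ Fin N) (F : ι → MvPolynomial (Fin n) ℂ)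
    (z : EuclideanSpace ℂ (Fin n)) : EuclideanSpace ℂ (Fin N) :=
  WithLp.toLp 2 fun a => ∑ x : ι, if e x = a then eval (fun i => z i) (F x) else 0

theorem mk_emb (e : ι ↪ Fin N) (F : ι → MvPolynomial (Fin n) ℂ) (z : EuclideanSpace ℂ (Fin n))
    (x : ι) : mk e F z (e x) = eval (fun i => z i) (F x) := by
  classical
  show (∑ y : ι, if e y = e x then eval (fun i => z i) (F y) else 0) = _
  rw [Finset.sum_eq_single x]
  · simp
  · intro y _ hy
    rw [if_neg fun h => hy (e.injective h)]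
  · intro h
    exact absurd (Finset.mem_univ x) h

theorem mk_zero (e : ι ↪ Fin N) (F : ι → MvPolynomial (Fin n) ℂ) (z : EuclideanSpace ℂ (Fin n))
    (a : Fin N) (ha : ∀ x, e x ≠ a) : mk e F z a = 0 := by
  classical
  show (∑ y : ι, if e y = a then eval (fun i => z i) (F y) else 0) = _
  exact Finset.sum_eq_zero fun y _ => if_neg (ha y)

theorem mk_norm (e : ι ↪ Fin N) (F : ι → MvPolynomial (Fin n) ℂ)
    (z : EuclideanSpace ℂ (Fin n)) :
    ‖mk e F z‖ ^ 2 = ∑ x, ‖eval (fun i => z i) (F x)‖ ^ 2 := by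
  classical
  rw [EuclideanSpace.norm_sq_eq]
  have h1 : ∑ a ∈ Finset.univ.map e, ‖mk e F z a‖ ^ 2 = ∑ a, ‖mk e F z a‖ ^ 2 := by
    apply Finset.sum_subset (Finset.subset_univ _)
    intro a _ ha
    rw [mk_zero e F z a fun x hx => ha (Finset.mem_map.2 ⟨x, Finset.mem_univ x, hx⟩), norm_zero]
    norm_num
  rw [← h1, Finset.sum_map]
  exact Finset.sum_congr rfl fun x _ => by rw [mk_emb]

theorem mk_diff (e : ι ↪ Fin N) (F : ι → MvPolynomial (Fin n) ℂ) :
    Differentiable ℂ (mk (n := n) e F) := by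
  classical
  rw [differentiable_euclidean]
  intro a
  show Differentiable ℂ fun z : EuclideanSpace ℂ (Fin n) =>
    ∑ x : ι, if e x = a then eval (fun i => z i) (F x) else 0
  refine Differentiable.fun_sum fun x _ => ?_
  by_cases h : e x = a
  · simp only [h, if_true]
    simp only [MvPolynomial.eval_eq']
    fun_prop
  · simp only [h, if_false]
    exact differentiable_const _

theorem pr_mk (e : ι ↪ Fin N) (F : ι → MvPolynomial (Fin n) ℂ) (k : ι → ℕ)
    (hk : ∀ x, 1 ≤ k x)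
    (hF : ∀ x (t : ℂ) (z : Fin n → ℂ), eval (fun i => t * z i) (F x) = t ^ k x * eval z (F x))
    (h1 : ∀ z : EuclideanSpace ℂ (Fin n), ‖z‖ = 1 → ∑ x, ‖eval (fun i => z i) (F x)‖ ^ 2 = 1) :
    PR (mk (n := n) e F) := by
  have hball : ∀ z ∈ ball (0 : EuclideanSpace ℂ (Fin n)) 1, ‖mk e F z‖ ^ 2 ≤ ‖z‖ ^ 2 := by
    intro z hz
    rw [mem_ball_zero_iff] at hz
    rw [mk_norm]
    by_cases hz0 : z = 0
    · subst hz0
      rw [norm_zero]
      apply le_of_eq
      have h2 : ∀ x, eval (fun i => (0 : EuclideanSpace ℂ (Fin n)) i) (F x) = 0 := by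
        intro x
        have := hF x 0 (fun i => (0 : EuclideanSpace ℂ (Fin n)) i)
        rw [zero_pow (by have := hk x; omega), zero_mul] at this
        simpa using this
      rw [Finset.sum_eq_zero fun x _ => by rw [h2 x, norm_zero, zero_pow two_ne_zero]]
      norm_num
    have hzn : 0 < ‖z‖ := norm_pos_iff.2 hz0
    set ζ : EuclideanSpace ℂ (Fin n) := ((‖z‖ : ℂ)⁻¹) • z with hζ
    have hζ1 : ‖ζ‖ = 1 := by
      rw [hζ, norm_smul, norm_inv, Complex.norm_real, norm_norm, inv_mul_cancel₀ hzn.ne']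
    have hz' : ∀ i, z i = (‖z‖ : ℂ) * ζ i := by
      intro i
      show z i = (‖z‖ : ℂ) * ((‖z‖ : ℂ)⁻¹ * z i)
      rw [← mul_assoc, mul_inv_cancel₀ (by exact_mod_cast hzn.ne'), one_mul]
    have h3 : ∀ x, ‖eval (fun i => z i) (F x)‖ ^ 2 ≤ ‖z‖ ^ 2 * ‖eval (fun i => ζ i) (F x)‖ ^ 2 := by
      intro x
      have h4 : eval (fun i => z i) (F x) = (‖z‖ : ℂ) ^ k x * eval (fun i => ζ i) (F x) := by
        rw [← hF]
        congr 2
        funext i
        exact hz' i
      rw [h4, norm_mul, norm_pow, Complex.norm_real, norm_norm, mul_pow]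
      have h5 : ‖z‖ ^ k x ≤ ‖z‖ := by
        calc ‖z‖ ^ k x ≤ ‖z‖ ^ 1 := pow_le_pow_of_le_one hzn.le hz.le (hk x)
          _ = ‖z‖ := pow_one _
      gcongr
    calc ∑ x, ‖eval (fun i => z i) (F x)‖ ^ 2
        ≤ ∑ x, ‖z‖ ^ 2 * ‖eval (fun i => ζ i) (F x)‖ ^ 2 := Finset.sum_le_sum fun x _ => h3 x
      _ = ‖z‖ ^ 2 := by rw [← Finset.mul_sum, h1 ζ hζ1, mul_one]
  have hmaps : ∀ z ∈ ball (0 : EuclideanSpace ℂ (Fin n)) 1, mk e F z ∈
      ball (0 : EuclideanSpace ℂ (Fin N)) 1 := by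
    intro z hz
    have h2 := hball z hz
    rw [mem_ball_zero_iff] at hz ⊢
    have h3 : ‖z‖ ^ 2 < 1 := by nlinarith [norm_nonneg z]
    by_contra hc
    push Not at hc
    nlinarith
  refine ⟨(mk_diff e F).differentiableOn, hmaps, fun K hK hKc => ?_⟩
  have h2 : ball (0 : EuclideanSpace ℂ (Fin n)) 1 ∩ mk e F ⁻¹' K =
      closedBall (0 : EuclideanSpace ℂ (Fin n)) 1 ∩ mk e F ⁻¹' K := by
    ext z
    constructor
    · rintro ⟨h3, h4⟩
      exact ⟨ball_subset_closedBall h3, h4⟩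
    · rintro ⟨h3, h4⟩
      refine ⟨?_, h4⟩
      rw [mem_closedBall_zero_iff] at h3
      rw [mem_ball_zero_iff]
      refine lt_of_le_of_ne h3 fun h5 => ?_
      have h6 := mk_norm e F z
      rw [h1 z h5] at h6
      have h7 := hK h4
      rw [mem_ball_zero_iff] at h7
      nlinarith [norm_nonneg (mk e F z)]
  rw [h2]
  exact (isCompact_closedBall _ _).inter_right (hKc.isClosed.preimage (mk_diff e F).continuous)

theorem hom_bound (F : ι → MvPolynomial (Fin n) ℂ) (k : ι → ℕ) (hk : ∀ x, 1 ≤ k x)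
    (hF : ∀ x (t : ℂ) (z : Fin n → ℂ), eval (fun i => t * z i) (F x) = t ^ k x * eval z (F x))
    (h1 : ∀ z : EuclideanSpace ℂ (Fin n), ‖z‖ = 1 → ∑ x, ‖eval (fun i => z i) (F x)‖ ^ 2 = 1)
    (x : ι) (z : EuclideanSpace ℂ (Fin n)) : ‖eval (fun i => z i) (F x)‖ ≤ ‖z‖ ^ k x := by
  by_cases hz0 : z = 0
  · subst hz0
    have := hF x 0 (fun i => (0 : EuclideanSpace ℂ (Fin n)) i)
    rw [zero_pow (by have := hk x; omega), zero_mul] at this
    have h2 : eval (fun i => (0 : EuclideanSpace ℂ (Fin n)) i) (F x) = 0 := by simpa using this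
    rw [h2, norm_zero]
    positivity
  have hzn : 0 < ‖z‖ := norm_pos_iff.2 hz0
  set ζ : EuclideanSpace ℂ (Fin n) := ((‖z‖ : ℂ)⁻¹) • z with hζ
  have hζ1 : ‖ζ‖ = 1 := by
    rw [hζ, norm_smul, norm_inv, Complex.norm_real, norm_norm, inv_mul_cancel₀ hzn.ne']
  have hz' : ∀ i, z i = (‖z‖ : ℂ) * ζ i := by
    intro i
    show z i = (‖z‖ : ℂ) * ((‖z‖ : ℂ)⁻¹ * z i)
    rw [← mul_assoc, mul_inv_cancel₀ (by exact_mod_cast hzn.ne'), one_mul]
  have h4 : eval (fun i => z i) (F x) = (‖z‖ : ℂ) ^ k x * eval (fun i => ζ i) (F x) := by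
    rw [← hF]
    congr 2
    funext i
    exact hz' i
  have h5 : ‖eval (fun i => ζ i) (F x)‖ ^ 2 ≤ 1 := by
    rw [← h1 ζ hζ1]
    exact Finset.single_le_sum (f := fun x => ‖eval (fun i => ζ i) (F x)‖ ^ 2)
      (fun x _ => by positivity) (Finset.mem_univ x)
  have h6 : ‖eval (fun i => ζ i) (F x)‖ ≤ 1 := by
    by_contra hc
    push Not at hc
    nlinarith
  rw [h4, norm_mul, norm_pow, Complex.norm_real, norm_norm]
  exact mul_le_of_le_one_right (by positivity) h6

theorem mk_rat (e : ι ↪ Fin N) (F : ι → MvPolynomial (Fin n) ℂ) (a : Fin N) :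
    ∃ P : MvPolynomial (Fin n) ℂ, ∀ z : EuclideanSpace ℂ (Fin n),
      mk e F z a = eval (fun i => z i) P := by
  classical
  refine ⟨∑ x : ι, if e x = a then F x else 0, fun z => ?_⟩
  rw [map_sum]
  show (∑ x : ι, if e x = a then eval (fun i => z i) (F x) else 0) = _
  refine Finset.sum_congr rfl fun x _ => ?_
  split_ifs <;> simp

/-- Two maps with the same jet. -/
theorem low_gen (e : ι ↪ Fin N) (F : ι → MvPolynomial (Fin n) ℂ) (k : ι → ℕ) (hk : ∀ x, 1 ≤ k x)
    (hF : ∀ x (t : ℂ) (z : Fin n → ℂ), eval (fun i => t * z i) (F x) = t ^ k x * eval z (F x))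
    (h1 : ∀ z : EuclideanSpace ℂ (Fin n), ‖z‖ = 1 → ∑ x, ‖eval (fun i => z i) (F x)‖ ^ 2 = 1)
    (x0 : ι) (hx0 : ∃ z ∈ ball (0 : EuclideanSpace ℂ (Fin n)) 1, eval (fun i => z i) (F x0) ≠ 0) :
    ∃ f g : EuclideanSpace ℂ (Fin n) → EuclideanSpace ℂ (Fin N), PR f ∧ PR g ∧
      (∀ a, ∃ P : MvPolynomial (Fin n) ℂ, ∀ z, f z a = eval (fun i => z i) P) ∧
      (∀ a, ∃ P : MvPolynomial (Fin n) ℂ, ∀ z, g z a = eval (fun i => z i) P) ∧
      ((fun z => f z - g z) =O[𝓝 0] fun z => ‖z‖ ^ k x0) ∧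
      ∃ z ∈ ball (0 : EuclideanSpace ℂ (Fin n)) 1, f z ≠ g z := by
  classical
  set G : ι → MvPolynomial (Fin n) ℂ := fun x => if x = x0 then -F x else F x with hG
  have hGn : ∀ x z, ‖eval z (G x)‖ = ‖eval z (F x)‖ := by
    intro x z
    rw [hG]
    simp only
    split_ifs
    · rw [map_neg, norm_neg]
    · rfl
  have hGF : ∀ x (t : ℂ) (z : Fin n → ℂ),
      eval (fun i => t * z i) (G x) = t ^ k x * eval z (G x) := by
    intro x t z
    rw [hG]
    simp only
    split_ifs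
    · rw [map_neg, map_neg, hF]
      ring
    · exact hF x t z
  refine ⟨mk e F, mk e G, pr_mk e F k hk hF h1, pr_mk e G k hk hGF fun z hz => ?_,
    mk_rat e F, mk_rat e G, ?_, ?_⟩
  · simp only [hGn]
    exact h1 z hz
  · refine Asymptotics.IsBigO.of_bound 2 (Eventually.of_forall fun z => ?_)
    rw [norm_pow, norm_norm]
    have h2 : ‖mk e F z - mk e G z‖ ^ 2 = (2 * ‖eval (fun i => z i) (F x0)‖) ^ 2 := by
      rw [EuclideanSpace.norm_sq_eq, Finset.sum_eq_single (e x0)]
      · rw [PiLp.sub_apply, mk_emb, mk_emb, hG]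
        simp only [if_true]
        rw [map_neg, sub_neg_eq_add, ← two_mul, norm_mul]
        norm_num
      · intro a _ ha
        rw [PiLp.sub_apply]
        by_cases hx : ∃ x, e x = a
        · obtain ⟨x, rfl⟩ := hx
          have hne : x ≠ x0 := fun h => ha (by rw [h])
          rw [mk_emb, mk_emb, hG]
          simp only [if_neg hne]
          rw [sub_self, norm_zero]
          norm_num
        · push Not at hx
          rw [mk_zero e F z a hx, mk_zero e G z a hx, sub_self, norm_zero]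
          norm_num
      · intro h
        exact absurd (Finset.mem_univ _) h
    have h3 : ‖mk e F z - mk e G z‖ = 2 * ‖eval (fun i => z i) (F x0)‖ :=
      (pow_left_inj₀ (norm_nonneg _) (by positivity) two_ne_zero).1 h2
    rw [h3]
    have := hom_bound F k hk hF h1 x0 z
    linarith
  · obtain ⟨z, hz, hne⟩ := hx0
    refine ⟨z, hz, fun h => hne ?_⟩
    have h2 := congrArg (fun v : EuclideanSpace ℂ (Fin N) => v (e x0)) h
    simp only at h2
    rw [mk_emb, mk_emb, hG] at h2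
    simp only [if_true] at h2
    rw [map_neg] at h2
    have h3 : (2 : ℂ) * eval (fun i => z i) (F x0) = 0 := by linear_combination h2
    exact (mul_eq_zero.1 h3).resolve_left two_ne_zero

end Low

/-- Determination by jets. -/
def Det (n N k : ℕ) : Prop :=
  ∀ f g : EuclideanSpace ℂ (Fin n) → EuclideanSpace ℂ (Fin N), PR f → PR g →
    (∀ a, ∃ P : MvPolynomial (Fin n) ℂ, ∀ z, f z a = eval (fun i => z i) P) →
    (∀ a, ∃ P : MvPolynomial (Fin n) ℂ, ∀ z, g z a = eval (fun i => z i) P) →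
    ((fun z => f z - g z) =O[𝓝 0] fun z => ‖z‖ ^ (k + 1)) →
    ∀ z ∈ ball (0 : EuclideanSpace ℂ (Fin n)) 1, f z = g z

theorem low_of {n N k d : ℕ} {ι : Type} [Fintype ι] (e : ι ↪ Fin N)
    (F : ι → MvPolynomial (Fin n) ℂ) (κ : ι → ℕ) (hk : ∀ x, 1 ≤ κ x)
    (hF : ∀ x (t : ℂ) (z : Fin n → ℂ), eval (fun i => t * z i) (F x) = t ^ κ x * eval z (F x))
    (h1 : ∀ z : EuclideanSpace ℂ (Fin n), ‖z‖ = 1 → ∑ x, ‖eval (fun i => z i) (F x)‖ ^ 2 = 1)
    (x0 : ι) (hx0 : ∃ z ∈ ball (0 : EuclideanSpace ℂ (Fin n)) 1, eval (fun i => z i) (F x0) ≠ 0)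
    (hd : κ x0 = d) (h : Det n N k) : d ≤ k := by
  by_contra hlt
  push Not at hlt
  obtain ⟨f, g, hf, hg, hfP, hgP, hO, z, hz, hne⟩ := low_gen e F κ hk hF h1 x0 hx0
  apply hne
  refine h f g hf hg hfP hgP (hO.trans ?_) z hz
  rw [hd]
  refine Asymptotics.IsBigO.of_bound 1 ?_
  filter_upwards [ball_mem_nhds (0 : EuclideanSpace ℂ (Fin n)) one_pos] with w hw
  rw [mem_ball_zero_iff] at hw
  rw [one_mul, norm_pow, norm_pow, norm_norm]
  exact pow_le_pow_of_le_one (norm_nonneg w) hw.le (by omega)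

/-- The Whitney type maps. -/
theorem lowA {n1 N k d : ℕ} (hd : 1 ≤ d) (hN : d * n1 + 1 ≤ N) (h : Det (n1 + 1) N k) : d ≤ k := by
  classical
  obtain ⟨e⟩ : Nonempty (Option (Fin d × Fin n1) ↪ Fin N) := by
    apply Function.Embedding.nonempty_of_card_le
    rw [Fintype.card_option, Fintype.card_prod, Fintype.card_fin, Fintype.card_fin,
      Fintype.card_fin]
    exact hN
  let F : Option (Fin d × Fin n1) → MvPolynomial (Fin (n1 + 1)) ℂ := fun x =>
    match x with
    | none => X (Fin.last n1) ^ d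
    | some (j, i) => X (Fin.last n1) ^ (j : ℕ) * X i.castSucc
  let κ : Option (Fin d × Fin n1) → ℕ := fun x =>
    match x with
    | none => d
    | some (j, i) => (j : ℕ) + 1
  refine low_of e F κ ?_ ?_ ?_ none ?_ rfl h
  · rintro (_ | ⟨j, i⟩)
    · exact hd
    · show 1 ≤ (j : ℕ) + 1
      omega
  · rintro (_ | ⟨j, i⟩) t z
    · simp only [F, κ, map_pow, eval_X]
      ring
    · simp only [F, κ, map_mul, map_pow, eval_X]
      ring
  · intro z hz
    have h2 : ∑ i : Fin n1, ‖z i.castSucc‖ ^ 2 + ‖z (Fin.last n1)‖ ^ 2 = 1 := by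
      have h3 := EuclideanSpace.norm_sq_eq z
      rw [hz, Fin.sum_univ_castSucc] at h3
      rw [← h3]
      norm_num
    rw [Fintype.sum_option, Fintype.sum_prod_type]
    simp only [F, map_mul, map_pow, eval_X, norm_mul, norm_pow, mul_pow]
    simp only [← Finset.mul_sum]
    rw [← Finset.sum_mul]
    set y : ℝ := ‖z (Fin.last n1)‖ ^ 2 with hy
    have h4 : ∑ i : Fin n1, ‖z i.castSucc‖ ^ 2 = 1 - y := by linarith
    rw [h4]
    have h5 : ∑ j : Fin d, (‖z (Fin.last n1)‖ ^ (j : ℕ)) ^ 2 = ∑ j ∈ Finset.range d, y ^ j := by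
      rw [Finset.sum_range]
      refine Finset.sum_congr rfl fun j _ => ?_
      rw [hy, ← pow_mul, ← pow_mul, mul_comm]
    rw [h5]
    have h6 := geom_sum_mul_neg y d
    rw [h6]
    rw [hy, ← pow_mul, ← pow_mul, mul_comm]
    ring
  · refine ⟨EuclideanSpace.single (Fin.last n1) (1 / 2 : ℂ), ?_, ?_⟩
    · rw [mem_ball_zero_iff, PiLp.norm_single]
      norm_num
    · simp [F]

/-! ### The maps of D'Angelo -/

/-- The coefficients of the Lucas polynomials. -/
def cf : ℕ → ℕ → ℕ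
  | 0, 0 => 2
  | 0, _ + 1 => 0
  | 1, 0 => 1
  | 1, _ + 1 => 0
  | m + 2, 0 => cf (m + 1) 0
  | m + 2, s + 1 => cf (m + 1) (s + 1) + cf m s

theorem cf_zero : ∀ m s : ℕ, m < 2 * s → cf m s = 0
  | 0, 0, h => absurd h (by omega)
  | 0, s + 1, _ => rfl
  | 1, 0, h => absurd h (by omega)
  | 1, s + 1, _ => rfl
  | m + 2, 0, h => absurd h (by omega)
  | m + 2, s + 1, h => by
    rw [cf, cf_zero (m + 1) (s + 1) (by omega), cf_zero m s (by omega)]

/-- The Lucas polynomials. -/
noncomputable def Lu (m : ℕ) (x y : ℝ) : ℝ :=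
  ∑ s ∈ Finset.range (m + 1), (cf m s : ℝ) * x ^ (m - 2 * s) * y ^ s

theorem Lu_rec (m : ℕ) (x y : ℝ) : Lu (m + 2) x y = x * Lu (m + 1) x y + y * Lu m x y := by
  unfold Lu
  rw [Finset.sum_range_succ' (fun s => (cf (m + 2) s : ℝ) * x ^ (m + 2 - 2 * s) * y ^ s) (m + 2),
    Finset.sum_range_succ' (fun s => (cf (m + 1) s : ℝ) * x ^ (m + 1 - 2 * s) * y ^ s) (m + 1),
    mul_add, Finset.mul_sum, Finset.mul_sum]
  have h1 : ∑ s ∈ Finset.range (m + 2), (cf (m + 2) (s + 1) : ℝ) * x ^ (m + 2 - 2 * (s + 1)) *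
      y ^ (s + 1) = ∑ s ∈ Finset.range (m + 2), ((cf (m + 1) (s + 1) : ℝ) * x ^ (m - 2 * s) *
      y ^ (s + 1) + (cf m s : ℝ) * x ^ (m - 2 * s) * y ^ (s + 1)) := by
    refine Finset.sum_congr rfl fun s _ => ?_
    have : m + 2 - 2 * (s + 1) = m - 2 * s := by omega
    rw [this, cf]
    push_cast
    ring
  have h2 : ∑ s ∈ Finset.range (m + 2), (cf (m + 1) (s + 1) : ℝ) * x ^ (m - 2 * s) *
      y ^ (s + 1) = ∑ s ∈ Finset.range (m + 1), x * ((cf (m + 1) (s + 1) : ℝ) *
      x ^ (m + 1 - 2 * (s + 1)) * y ^ (s + 1)) := by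
    rw [Finset.sum_range_succ, cf_zero (m + 1) (m + 1 + 1) (by omega)]
    rw [Nat.cast_zero, zero_mul, zero_mul, add_zero]
    refine Finset.sum_congr rfl fun s _ => ?_
    by_cases hs : m + 1 < 2 * (s + 1)
    · rw [cf_zero _ _ hs]
      simp
    · have : m - 2 * s = (m + 1 - 2 * (s + 1)) + 1 := by omega
      rw [this, pow_succ]
      ring
  have h3 : ∑ s ∈ Finset.range (m + 2), (cf m s : ℝ) * x ^ (m - 2 * s) * y ^ (s + 1) =
      ∑ s ∈ Finset.range (m + 1), y * ((cf m s : ℝ) * x ^ (m - 2 * s) * y ^ s) := by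
    rw [Finset.sum_range_succ, cf_zero m (m + 1) (by omega)]
    rw [Nat.cast_zero, zero_mul, zero_mul, add_zero]
    refine Finset.sum_congr rfl fun s _ => ?_
    rw [pow_succ]
    ring
  rw [h1, Finset.sum_add_distrib, h2, h3]
  have h4 : (cf (m + 2) 0 : ℝ) * x ^ (m + 2 - 2 * 0) * y ^ 0 =
      x * ((cf (m + 1) 0 : ℝ) * x ^ (m + 1 - 2 * 0) * y ^ 0) := by
    rw [cf]
    have : m + 2 - 2 * 0 = (m + 1 - 2 * 0) + 1 := by omega
    rw [this, pow_succ]
    ring
  rw [h4]
  ring

theorem Lu_one {x y : ℝ} (h : x + y = 1) : ∀ m : ℕ, Lu m x y = 1 + (-y) ^ m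
  | 0 => by simp [Lu, cf]; norm_num
  | 1 => by
    simp only [Lu, Finset.sum_range_succ, Finset.sum_range_zero, cf]
    norm_num
    linarith
  | m + 2 => by
    rw [Lu_rec, Lu_one h (m + 1), Lu_one h m]
    have hx : x = 1 - y := by linarith
    rw [hx]
    ring

theorem lowB {r k : ℕ} (h : Det 2 (r + 2) k) : 2 * r + 1 ≤ k := by
  classical
  obtain ⟨e⟩ : Nonempty (Option (Fin (r + 1)) ↪ Fin (r + 2)) := by
    apply Function.Embedding.nonempty_of_card_le
    rw [Fintype.card_option, Fintype.card_fin, Fintype.card_fin]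
  let F : Option (Fin (r + 1)) → MvPolynomial (Fin 2) ℂ := fun x =>
    match x with
    | none => X 1 ^ (2 * r + 1)
    | some s => C ((Real.sqrt (cf (2 * r + 1) s) : ℝ) : ℂ) * X 0 ^ (2 * r + 1 - 2 * (s : ℕ)) *
        X 1 ^ (s : ℕ)
  let κ : Option (Fin (r + 1)) → ℕ := fun x =>
    match x with
    | none => 2 * r + 1
    | some s => 2 * r + 1 - 2 * (s : ℕ) + s
  refine low_of e F κ ?_ ?_ ?_ none ?_ rfl h
  · rintro (_ | s)
    · show 1 ≤ 2 * r + 1
      omega
    · show 1 ≤ 2 * r + 1 - 2 * (s : ℕ) + s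
      have := s.2
      omega
  · rintro (_ | s) t z
    · simp only [F, κ, map_pow, eval_X]
      ring
    · simp only [F, κ, map_mul, map_pow, eval_X, eval_C]
      ring
  · intro z hz
    have h2 : ‖z 0‖ ^ 2 + ‖z 1‖ ^ 2 = 1 := by
      have h3 := EuclideanSpace.norm_sq_eq z
      rw [hz, Fin.sum_univ_two] at h3
      rw [← h3]
      norm_num
    rw [Fintype.sum_option]
    simp only [F, map_mul, map_pow, eval_X, eval_C, norm_mul, norm_pow, mul_pow,
      Complex.norm_real]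
    have h3 : ∑ s : Fin (r + 1), ‖Real.sqrt (cf (2 * r + 1) s)‖ ^ 2 *
        (‖z 0‖ ^ (2 * r + 1 - 2 * (s : ℕ))) ^ 2 * (‖z 1‖ ^ (s : ℕ)) ^ 2 =
        Lu (2 * r + 1) (‖z 0‖ ^ 2) (‖z 1‖ ^ 2) := by
      unfold Lu
      have h4 : ∑ s ∈ Finset.range (r + 1), (cf (2 * r + 1) s : ℝ) *
          (‖z 0‖ ^ 2) ^ (2 * r + 1 - 2 * s) * (‖z 1‖ ^ 2) ^ s =
          ∑ s ∈ Finset.range (2 * r + 1 + 1), (cf (2 * r + 1) s : ℝ) *
          (‖z 0‖ ^ 2) ^ (2 * r + 1 - 2 * s) * (‖z 1‖ ^ 2) ^ s := by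
        apply Finset.sum_subset (Finset.range_subset_range.2 (by omega))
        intro s _ hs
        rw [Finset.mem_range] at hs
        rw [cf_zero _ _ (by omega)]
        simp
      rw [← h4, Finset.sum_range]
      refine Finset.sum_congr rfl fun s _ => ?_
      rw [Real.norm_of_nonneg (Real.sqrt_nonneg _), Real.sq_sqrt (by positivity), ← pow_mul,
        ← pow_mul, ← pow_mul, ← pow_mul, mul_comm 2 (s : ℕ), mul_comm (2 * r + 1 - (s : ℕ) * 2) 2]
    rw [h3, Lu_one h2, Odd.neg_pow ⟨r, rfl⟩]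
    ring
  · refine ⟨EuclideanSpace.single 1 (1 / 2 : ℂ), ?_, ?_⟩
    · rw [mem_ball_zero_iff, PiLp.norm_single]
      norm_num
    · simp [F]

end Pool.Agent.T6.H51.JD
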